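import Pool.Agent.H135R2.RC.Exist
import Pool.Agent.H135R2.Rigid.Transfer

set_option autoImplicit false
set_option linter.unusedSectionVars false
set_option linter.unusedSimpArgs false

namespace Pool.Agent.H135R2.RC

open Set Filter Topology Pool.Agent.H135R2.Rigid

variable {V : Type*} [Fintype V] [DecidableEq V]

/-- Parameters: horizontal corrections and heights. -/
abbrev Par (V : Type*) := (V → ℝ) × (V → ℝ)

section defs

variable (D : PD V) (H : ℕ)

/-- Horizontal positions. -/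
def xx (τ : ℝ) (v : V) : ℝ := ∑ k, D.d v k * τ ^ (2 * D.h k)

/-- Vertical positions. -/
def yy (τ : ℝ) (η : V → ℝ) (v : V) : ℝ := ∑ k, D.d v k * (τ ^ D.h k * η k)

/-- The configurations. -/
def cfg (τ : ℝ) (x : Par V) : Conf V :=
  fun v => ![xx D τ v + τ ^ (2 * H) * x.1 v, τ ^ H * yy D τ x.2 v]

/-- Normalised horizontal difference. -/
def Xt (τ : ℝ) (a b : V) : ℝ := ∑ k, (D.d a k - D.d b k) * τ ^ (2 * (D.h k - D.h (D.κ a b)))

/-- Normalised vertical difference. -/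
def Yt (τ : ℝ) (η : V → ℝ) (a b : V) : ℝ :=
  ∑ k, (D.d a k - D.d b k) * (τ ^ (D.h k - D.h (D.κ a b)) * η k)

/-- Normalised squared length. -/
def Φ (τ : ℝ) (x : Par V) (a b : V) : ℝ :=
  2 * Xt D τ a b * (x.1 a - x.1 b) + Yt D τ x.2 a b ^ 2 +
    τ ^ (2 * (H - D.h (D.κ a b))) * (x.1 a - x.1 b) ^ 2

/-- Normalised area. -/
def NN (τ : ℝ) (x : Par V) (a b c : V) : ℝ :=
  (τ ^ (D.h (D.κ a b) - D.h (D.κ a c)) * Xt D τ a b +
    τ ^ (2 * H - D.h (D.κ a b) - D.h (D.κ a c)) * (x.1 a - x.1 b)) * Yt D τ x.2 a c -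
  Yt D τ x.2 a b * (Xt D τ a c + τ ^ (2 * H - 2 * D.h (D.κ a c)) * (x.1 a - x.1 c))

end defs

variable {D : PD V} {H : ℕ}

theorem xx_sub (hD : Ok Finset.univ D) (τ : ℝ) {a b : V} (hab : a ≠ b) :
    xx D τ a - xx D τ b = τ ^ (2 * D.h (D.κ a b)) * Xt D τ a b := by
  unfold xx Xt
  rw [← Finset.sum_sub_distrib, Finset.mul_sum]
  refine Finset.sum_congr rfl fun k _ => ?_
  by_cases h : D.d a k = D.d b k
  · rw [h]; ring
  · have h1 : D.h (D.κ a b) ≤ D.h k := by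
      by_cases hk : k = D.κ a b
      · rw [hk]
      · exact (hD.hlt a (Finset.mem_univ _) b (Finset.mem_univ _) hab k hk h).le
    have h2 : 2 * D.h k = 2 * D.h (D.κ a b) + 2 * (D.h k - D.h (D.κ a b)) := by omega
    rw [h2, pow_add]
    have h3 : 2 * D.h (D.κ a b) + 2 * (D.h k - D.h (D.κ a b)) - 0 = 2 * D.h k := by omega
    ring

theorem yy_sub (hD : Ok Finset.univ D) (τ : ℝ) (η : V → ℝ) {a b : V} (hab : a ≠ b) :
    yy D τ η a - yy D τ η b = τ ^ (D.h (D.κ a b)) * Yt D τ η a b := by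
  unfold yy Yt
  rw [← Finset.sum_sub_distrib, Finset.mul_sum]
  refine Finset.sum_congr rfl fun k _ => ?_
  by_cases h : D.d a k = D.d b k
  · rw [h]; ring
  · have h1 : D.h (D.κ a b) ≤ D.h k := by
      by_cases hk : k = D.κ a b
      · rw [hk]
      · exact (hD.hlt a (Finset.mem_univ _) b (Finset.mem_univ _) hab k hk h).le
    obtain ⟨m, hm⟩ := Nat.exists_eq_add_of_le h1
    rw [hm, pow_add, Nat.add_sub_cancel_left]
    ring

theorem Xt_zero (hD : Ok Finset.univ D) {a b : V} (hab : a ≠ b) :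
    Xt D 0 a b = D.d a (D.κ a b) - D.d b (D.κ a b) := by
  unfold Xt
  rw [Finset.sum_eq_single (D.κ a b)]
  · simp
  · intro k _ hk
    by_cases h : D.d a k = D.d b k
    · rw [h]; ring
    · have := hD.hlt a (Finset.mem_univ _) b (Finset.mem_univ _) hab k hk h
      rw [zero_pow (by omega), mul_zero]
  · intro h; exact absurd (Finset.mem_univ _) h

theorem Yt_zero (hD : Ok Finset.univ D) (η : V → ℝ) {a b : V} (hab : a ≠ b) :
    Yt D 0 η a b = (D.d a (D.κ a b) - D.d b (D.κ a b)) * η (D.κ a b) := by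
  unfold Yt
  rw [Finset.sum_eq_single (D.κ a b)]
  · simp
  · intro k _ hk
    by_cases h : D.d a k = D.d b k
    · rw [h]; ring
    · have := hD.hlt a (Finset.mem_univ _) b (Finset.mem_univ _) hab k hk h
      rw [zero_pow (by omega), zero_mul, mul_zero]
  · intro h; exact absurd (Finset.mem_univ _) h

theorem sq_cfg (hD : Ok Finset.univ D) (hH : ∀ k, D.h k < H) (τ : ℝ) (x : Par V) {a b : V}
    (hab : a ≠ b) : sq (cfg D H τ x) a b =
      (xx D τ a - xx D τ b) ^ 2 + τ ^ (2 * H + 2 * D.h (D.κ a b)) * Φ D H τ x a b := by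
  have h1 := xx_sub hD τ hab
  have h2 := yy_sub hD τ x.2 hab
  have h3 : sq (cfg D H τ x) a b = ((xx D τ a - xx D τ b) + τ ^ (2 * H) * (x.1 a - x.1 b)) ^ 2 +
      (τ ^ H * (yy D τ x.2 a - yy D τ x.2 b)) ^ 2 := by
    simp only [Rigid.sq, cfg, Matrix.cons_val_zero, Matrix.cons_val_one]
    ring
  rw [h3, h2]
  unfold Φ
  obtain ⟨m, hm⟩ := Nat.exists_eq_add_of_le (hH (D.κ a b)).le
  have h4 : H - D.h (D.κ a b) = m := by omega
  rw [h4]
  have h5 : (xx D τ a - xx D τ b + τ ^ (2 * H) * (x.1 a - x.1 b)) ^ 2 =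
      (xx D τ a - xx D τ b) ^ 2 + 2 * (xx D τ a - xx D τ b) * (τ ^ (2 * H) * (x.1 a - x.1 b))
      + (τ ^ (2 * H) * (x.1 a - x.1 b)) ^ 2 := by ring
  rw [h5]
  nth_rewrite 2 [h1]
  rw [hm]
  ring

theorem sq_eq_of_Φ (hD : Ok Finset.univ D) (hH : ∀ k, D.h k < H) {τ : ℝ} {x x' : Par V} {a b : V}
    (h : Φ D H τ x a b = Φ D H τ x' a b) : sq (cfg D H τ x) a b = sq (cfg D H τ x') a b := by
  by_cases hab : a = b
  · subst hab; simp [Rigid.sq]
  · rw [sq_cfg hD hH τ x hab, sq_cfg hD hH τ x' hab, h]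

theorem area_cfg (hD : Ok Finset.univ D) (hH : ∀ k, D.h k < H) (τ : ℝ) (x : Par V) {a b c : V}
    (hab : a ≠ b) (hac : a ≠ c) (hlt : D.h (D.κ a c) < D.h (D.κ a b)) :
    area (cfg D H τ x) a b c =
      τ ^ (H + D.h (D.κ a b) + 2 * D.h (D.κ a c)) * NN D H τ x a b c := by
  have h1 := xx_sub hD τ hab
  have h2 := yy_sub hD τ x.2 hab
  have h1' := xx_sub hD τ hac
  have h2' := yy_sub hD τ x.2 hac
  have h3 : area (cfg D H τ x) a b c =
      ((xx D τ a - xx D τ b) + τ ^ (2 * H) * (x.1 a - x.1 b)) *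
        (τ ^ H * (yy D τ x.2 a - yy D τ x.2 c)) -
      ((xx D τ a - xx D τ c) + τ ^ (2 * H) * (x.1 a - x.1 c)) *
        (τ ^ H * (yy D τ x.2 a - yy D τ x.2 b)) := by
    simp only [area, cfg, Matrix.cons_val_zero, Matrix.cons_val_one]
    ring
  rw [h3, h1, h2, h1', h2']
  unfold NN
  obtain ⟨m, hm⟩ := Nat.exists_eq_add_of_le hlt.le
  obtain ⟨l, hl⟩ := Nat.exists_eq_add_of_le (hH (D.κ a b)).le
  have e1 : D.h (D.κ a b) - D.h (D.κ a c) = m := by omega
  have e2 : 2 * H - D.h (D.κ a b) - D.h (D.κ a c) = m + 2 * l := by omega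
  have e3 : 2 * H - 2 * D.h (D.κ a c) = 2 * (m + l) := by omega
  rw [e1, e2, e3, hl, hm]
  ring

theorem NN_zero (hD : Ok Finset.univ D) (hH : ∀ k, D.h k < H) (x : Par V) {a b c : V}
    (hab : a ≠ b) (hac : a ≠ c) (hlt : D.h (D.κ a c) < D.h (D.κ a b)) :
    NN D H 0 x a b c = -((D.d a (D.κ a b) - D.d b (D.κ a b)) * (D.d a (D.κ a c) - D.d c (D.κ a c)))
      * x.2 (D.κ a b) := by
  unfold NN
  have hl := hH (D.κ a b)
  rw [Xt_zero hD hab, Xt_zero hD hac, Yt_zero hD _ hab, Yt_zero hD _ hac,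
    zero_pow (by omega : D.h (D.κ a b) - D.h (D.κ a c) ≠ 0),
    zero_pow (by omega : 2 * H - D.h (D.κ a b) - D.h (D.κ a c) ≠ 0),
    zero_pow (by omega : 2 * H - 2 * D.h (D.κ a c) ≠ 0)]
  ring

theorem continuous_NN (a b c : V) : Continuous fun w : ℝ × Par V => NN D H w.1 w.2 a b c := by
  unfold NN Xt Yt
  fun_prop

theorem contDiff_Φ (a b : V) : ContDiff ℝ 1 fun w : ℝ × Par V => Φ D H w.1 w.2 a b := by
  unfold Φ Xt Yt
  fun_prop

/-- Products of signed areas are determined by the distances. -/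
theorem area_mul (p : Conf V) (a b c a' b' c' : V) :
    area p a b c * area p a' b' c' =
      (1/4) * ((sq p b a' + sq p a b' - sq p b b' - sq p a a') *
        (sq p c a' + sq p a c' - sq p c c' - sq p a a') -
      (sq p b a' + sq p a c' - sq p b c' - sq p a a') *
        (sq p c a' + sq p a b' - sq p c b' - sq p a a')) := by
  unfold area Rigid.sq
  ring

/-! ### the local map -/

/-- The map to normalised squared lengths. -/
noncomputable def Ψ (D : PD V) (H : ℕ) (F : Set (Sym2 V)) (w : ℝ × Par V) : ℝ × (F → ℝ) :=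
  (w.1, fun e => Φ D H w.1 w.2 e.1.out.1 e.1.out.2)

theorem out_ne {F : Set (Sym2 V)} (hd : ∀ c, s(c, c) ∉ F) (e : F) : e.1.out.1 ≠ e.1.out.2 := by
  intro h
  have h1 : s(e.1.out.1, e.1.out.2) = e.1 := Quot.out_eq e.1
  rw [h] at h1
  exact hd _ (h1 ▸ e.2)

theorem Φ_base (hD : Ok Finset.univ D) (_hH : ∀ k, D.h k < H) {σ : V → ℝ} {a b : V} (hab : a ≠ b) :
    Φ D H 0 (0, σ) a b = σ (D.κ a b) ^ 2 := by
  unfold Φ
  have := hD.sq1 a (Finset.mem_univ _) b (Finset.mem_univ _) hab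
  rw [Yt_zero hD _ hab]
  simp only [Pi.zero_apply, sub_self, mul_zero, zero_add]
  rw [mul_pow, this]
  ring

theorem map_Ψ (hD : Ok Finset.univ D) (hH : ∀ k, D.h k < H) {F : Set (Sym2 V)}
    (hd : ∀ c, s(c, c) ∉ F) (hG : Good D F) {σ : V → ℝ} (hσ : ∀ k, k ≠ D.r → σ k ^ 2 = 1) :
    map (Ψ D H F) (𝓝 (0, (0, σ))) = 𝓝 (Ψ D H F (0, (0, σ))) := by
  classical
  have : Fintype F := Fintype.ofFinite F
  let w0 : ℝ × Par V := (0, (0, σ))
  let φ : F → ℝ × Par V → ℝ := fun e w => Φ D H w.1 w.2 e.1.out.1 e.1.out.2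
  have hφ : ∀ e, HasStrictFDerivAt (φ e) (fderiv ℝ (φ e) w0) w0 := by
    intro e
    exact (contDiff_Φ _ _).contDiffAt.hasStrictFDerivAt (by norm_num)
  have hD' : HasStrictFDerivAt (Ψ D H F)
      ((ContinuousLinearMap.fst ℝ ℝ (Par V)).prod
        (ContinuousLinearMap.pi fun e => fderiv ℝ (φ e) w0)) w0 := by
    refine hasStrictFDerivAt_fst.prodMk ?_
    rw [hasStrictFDerivAt_pi']
    intro e
    exact hφ e
  refine hD'.map_nhds_eq_of_surj ?_
  rw [LinearMap.range_eq_top]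
  rintro ⟨t, y⟩
  -- the partial derivative
  have hpart : ∀ (e : F) (α θ : V → ℝ), fderiv ℝ (φ e) w0 (0, (α, θ)) =
      2 * (D.d e.1.out.1 (D.κ e.1.out.1 e.1.out.2) - D.d e.1.out.2 (D.κ e.1.out.1 e.1.out.2)) *
        (α e.1.out.1 - α e.1.out.2) +
      2 * σ (D.κ e.1.out.1 e.1.out.2) * θ (D.κ e.1.out.1 e.1.out.2) := by
    intro e α θ
    have hab := out_ne hd e
    set a := e.1.out.1 with ha
    set b := e.1.out.2 with hb
    set κ := D.κ a b with hκ
    have hsq := hD.sq1 a (Finset.mem_univ _) b (Finset.mem_univ _) hab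
    have hℓ : HasDerivAt (fun s : ℝ => w0 + s • ((0, (α, θ)) : ℝ × Par V)) (0, (α, θ)) 0 := by
      have := ((hasDerivAt_id (0:ℝ)).smul_const ((0, (α, θ)) : ℝ × Par V)).const_add w0
      simpa using this
    have h1 : HasDerivAt (fun s : ℝ => φ e (w0 + s • ((0, (α, θ)) : ℝ × Par V)))
        (fderiv ℝ (φ e) w0 (0, (α, θ))) 0 := by
      have h2 : HasFDerivAt (φ e) (fderiv ℝ (φ e) w0)
          ((fun s : ℝ => w0 + s • ((0, (α, θ)) : ℝ × Par V)) 0) := by
        have : (fun s : ℝ => w0 + s • ((0, (α, θ)) : ℝ × Par V)) 0 = w0 := by simp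
        rw [this]
        exact (hφ e).hasFDerivAt
      exact h2.comp_hasDerivAt 0 hℓ
    have h3 : (fun s : ℝ => φ e (w0 + s • ((0, (α, θ)) : ℝ × Par V))) =
        fun s => 2 * (D.d a κ - D.d b κ) * (s * (α a - α b)) + (σ κ + s * θ κ) ^ 2 := by
      ext s
      simp only [φ, w0]
      have e1 : (((0, (0, σ)) : ℝ × Par V) + s • ((0, (α, θ)) : ℝ × Par V)) =
          (0, (s • α, σ + s • θ)) := by
        ext <;> simp
      rw [e1]
      simp only []
      unfold Φ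
      rw [← ha, ← hb, Xt_zero hD hab, Yt_zero hD _ hab, ← hκ, mul_pow, hsq,
        zero_pow (by have := hH κ; omega : 2 * (H - D.h κ) ≠ 0)]
      simp only [Pi.smul_apply, Pi.add_apply, smul_eq_mul]
      ring
    rw [h3] at h1
    have h4 : HasDerivAt (fun s : ℝ => 2 * (D.d a κ - D.d b κ) * (s * (α a - α b))
        + (σ κ + s * θ κ) ^ 2)
        (2 * (D.d a κ - D.d b κ) * (α a - α b) + 2 * σ κ * θ κ) 0 := by
      have e1 : HasDerivAt (fun s : ℝ => s * (α a - α b)) (1 * (α a - α b)) 0 :=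
        (hasDerivAt_id (0:ℝ)).mul_const _
      have e2 : HasDerivAt (fun s : ℝ => σ κ + s * θ κ) (1 * θ κ) 0 :=
        ((hasDerivAt_id (0:ℝ)).mul_const _).const_add _
      have e3 := (e1.const_mul (2 * (D.d a κ - D.d b κ))).add (e2.pow 2)
      refine e3.congr_deriv ?_
      simp
    exact h1.unique h4
  obtain ⟨α, θ, hθr, hαθ⟩ := hG.surj hD hd (fun e =>
    (D.d e.1.out.1 (D.κ e.1.out.1 e.1.out.2) - D.d e.1.out.2 (D.κ e.1.out.1 e.1.out.2)) *
      (y e - fderiv ℝ (φ e) w0 (t, (0, 0))) / 2)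
  refine ⟨(t, (α, fun k => σ k * θ k)), ?_⟩
  refine Prod.ext rfl ?_
  ext e
  have hab := out_ne hd e
  have hsq := hD.sq1 e.1.out.1 (Finset.mem_univ _) e.1.out.2 (Finset.mem_univ _) hab
  have h1 := hαθ e
  have h2 : fderiv ℝ (φ e) w0 (t, (α, fun k => σ k * θ k)) =
      fderiv ℝ (φ e) w0 (t, (0, 0)) + fderiv ℝ (φ e) w0 (0, (α, fun k => σ k * θ k)) := by
    rw [← map_add]
    congr 1
    ext <;> simp
  change fderiv ℝ (φ e) w0 (t, (α, fun k => σ k * θ k)) = y e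
  rw [h2, hpart]
  set κ := D.κ e.1.out.1 e.1.out.2 with hκ
  have h3 : σ κ * (σ κ * θ κ) = θ κ := by
    by_cases hr : κ = D.r
    · rw [hr, hθr]; ring
    · have := hσ κ hr
      calc σ κ * (σ κ * θ κ) = σ κ ^ 2 * θ κ := by ring
        _ = θ κ := by rw [this, one_mul]
  set S := D.d e.1.out.1 κ - D.d e.1.out.2 κ with hS
  have h4 : 2 * S * (α e.1.out.1 - α e.1.out.2) + 2 * σ κ * (σ κ * θ κ) =
      2 * S * (α e.1.out.1 - α e.1.out.2 + S * θ κ) := by
    calc 2 * S * (α e.1.out.1 - α e.1.out.2) + 2 * σ κ * (σ κ * θ κ)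
        = 2 * S * (α e.1.out.1 - α e.1.out.2) + 2 * (σ κ * (σ κ * θ κ)) := by ring
      _ = 2 * S * (α e.1.out.1 - α e.1.out.2) + 2 * (S ^ 2 * θ κ) := by rw [h3, hsq, one_mul]
      _ = _ := by ring
  rw [h4, h1]
  calc fderiv ℝ (φ e) w0 (t, (0, 0)) + 2 * S * (S * (y e - fderiv ℝ (φ e) w0 (t, (0, 0))) / 2)
      = fderiv ℝ (φ e) w0 (t, (0, 0)) + S ^ 2 * (y e - fderiv ℝ (φ e) w0 (t, (0, 0))) := by ring
    _ = y e := by rw [hsq]; ring

theorem cfg_open (hD : Ok Finset.univ D) {τ : ℝ} (hτ : τ ≠ 0) : IsOpenMap (cfg D H τ) := by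
  let Ll : Par V →ₗ[ℝ] Conf V :=
    { toFun := fun x v => ![τ ^ (2 * H) * x.1 v, τ ^ H * yy D τ x.2 v]
      map_add' := by
        intro x x'
        ext v i
        fin_cases i
        · simp [mul_add]
        · simp [yy, mul_add, Finset.sum_add_distrib]
      map_smul' := by
        intro c x
        ext v i
        fin_cases i
        · simp only [Prod.smul_fst, Pi.smul_apply, smul_eq_mul, RingHom.id_apply,
            Fin.zero_eta, Matrix.cons_val_zero]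
          ring
        · simp only [Prod.smul_snd, Pi.smul_apply, smul_eq_mul, RingHom.id_apply,
            Fin.mk_one, Matrix.cons_val_one, Matrix.cons_val_zero, yy, Finset.mul_sum]
          exact Finset.sum_congr rfl fun k _ => by ring }
  have hs : Function.Surjective Ll := by
    intro p
    obtain ⟨η, hη⟩ := hD.surj (fun v => p v 1 / τ ^ H)
    refine ⟨(fun v => p v 0 / τ ^ (2 * H), fun k => η k / τ ^ D.h k), ?_⟩
    ext v i
    fin_cases i
    · simp only [Ll, LinearMap.coe_mk, AddHom.coe_mk, Fin.zero_eta, Matrix.cons_val_zero]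
      field_simp
    · simp only [Ll, LinearMap.coe_mk, AddHom.coe_mk, Fin.mk_one, Matrix.cons_val_one,
        Matrix.cons_val_zero, yy]
      have h1 := hη v (Finset.mem_univ _)
      have h2 : ∑ k, D.d v k * (τ ^ D.h k * (η k / τ ^ D.h k)) = p v 1 / τ ^ H := by
        rw [← h1]
        refine Finset.sum_congr rfl fun k _ => ?_
        rw [mul_div_cancel₀ _ (pow_ne_zero _ hτ)]
      rw [h2, mul_div_cancel₀ _ (pow_ne_zero _ hτ)]
  let Lc : Par V →L[ℝ] Conf V := LinearMap.toContinuousLinearMap Ll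
  have h1 : IsOpenMap Lc := Lc.isOpenMap hs
  have h2 : cfg D H τ = (fun c : Conf V => (fun v => ![xx D τ v, 0]) + c) ∘ Lc := by
    ext x v i
    fin_cases i
    · simp [cfg, Lc, Ll]
    · simp [cfg, Lc, Ll]
  rw [h2]
  exact (Homeomorph.addLeft (fun v => ![xx D τ v, 0] : Conf V)).isOpenMap.comp h1

/-- Many realisations. -/
theorem realise (hD : Ok Finset.univ D) {F : Set (Sym2 V)} (hd : ∀ c, s(c, c) ∉ F)
    (hG : Good D F) {ι : Type*} [Finite ι] [Nonempty ι] (σ : ι → V → ℝ)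
    (hσ : ∀ i k, k ≠ D.r → σ i k ^ 2 = 1) (hσr : ∀ i, σ i D.r = 0) :
    ∃ p : Conf V, Gen p ∧ ∃ q : ι → Conf V, (∀ i a b, s(a, b) ∈ F →
      Rigid.sq (q i) a b = Rigid.sq p a b) ∧
      ∀ i j, (∀ a b, Rigid.sq (q i) a b = Rigid.sq (q j) a b) →
        ∀ k l, k ≠ D.v0 → k ≠ D.r → l ≠ D.v0 → l ≠ D.r → σ i k * σ i l = σ j k * σ j l := by
  classical
  obtain ⟨H, hH⟩ : ∃ H : ℕ, ∀ k, D.h k < H :=
    ⟨Finset.univ.sup D.h + 1, fun k => Nat.lt_succ_of_le (Finset.le_sup (Finset.mem_univ k))⟩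
  -- triangles
  have htri := fun k => hD.tri k (Finset.mem_univ k)
  have htri' : ∀ k, ∃ a b c, k ≠ D.v0 → k ≠ D.r → a ≠ b ∧ a ≠ c ∧ D.κ a b = k ∧
      D.h (D.κ a c) < D.h k := by
    intro k
    by_cases h : k ≠ D.v0 ∧ k ≠ D.r
    · obtain ⟨a, -, b, -, c, -, h1⟩ := htri k h.1 h.2
      exact ⟨a, b, c, fun _ _ => h1⟩
    · exact ⟨k, k, k, fun h1 h2 => absurd ⟨h1, h2⟩ h⟩
  choose ta tb tc htt using htri'
  let ε : V → ℝ := fun k => -((D.d (ta k) k - D.d (tb k) k) *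
    (D.d (ta k) (D.κ (ta k) (tc k)) - D.d (tc k) (D.κ (ta k) (tc k))))
  have hε : ∀ k, k ≠ D.v0 → k ≠ D.r → ε k ^ 2 = 1 := by
    intro k h0 hr
    obtain ⟨h1, h2, h3, h4⟩ := htt k h0 hr
    have e1 := hD.sq1 (ta k) (Finset.mem_univ _) (tb k) (Finset.mem_univ _) h1
    have e2 := hD.sq1 (ta k) (Finset.mem_univ _) (tc k) (Finset.mem_univ _) h2
    rw [h3] at e1
    simp only [ε]
    rw [neg_sq, mul_pow, e1, e2, one_mul]
  -- neighbourhoods
  let N : ι → Set (ℝ × Par V) := fun i => {w | ∀ k, k ≠ D.v0 → k ≠ D.r →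
    0 < NN D H w.1 w.2 (ta k) (tb k) (tc k) * (ε k * σ i k)}
  have hN : ∀ i, N i ∈ 𝓝 ((0, (0, σ i)) : ℝ × Par V) := by
    intro i
    have : ∀ k, ∀ᶠ w in 𝓝 ((0, (0, σ i)) : ℝ × Par V), k ≠ D.v0 → k ≠ D.r →
        0 < NN D H w.1 w.2 (ta k) (tb k) (tc k) * (ε k * σ i k) := by
      intro k
      by_cases h : k ≠ D.v0 ∧ k ≠ D.r
      · obtain ⟨h1, h2, h3, h4⟩ := htt k h.1 h.2
        have hc : Continuous fun w : ℝ × Par V =>
            NN D H w.1 w.2 (ta k) (tb k) (tc k) * (ε k * σ i k) :=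
          (continuous_NN _ _ _).mul continuous_const
        have hpos : 0 < NN D H 0 (0, σ i) (ta k) (tb k) (tc k) * (ε k * σ i k) := by
          rw [NN_zero hD hH _ h1 h2 (by rw [h3]; exact h4), h3]
          have : -((D.d (ta k) k - D.d (tb k) k) *
            (D.d (ta k) (D.κ (ta k) (tc k)) - D.d (tc k) (D.κ (ta k) (tc k)))) = ε k := rfl
          rw [this]
          have e3 : ε k * σ i k * (ε k * σ i k) = ε k ^ 2 * σ i k ^ 2 := by ring
          rw [e3, hε k h.1 h.2, hσ i k h.2]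
          norm_num
        have := (isOpen_lt continuous_const hc).mem_nhds (x := ((0, (0, σ i)) : ℝ × Par V)) hpos
        filter_upwards [this] with w hw _ _
        exact hw
      · filter_upwards with w h1 h2
        exact absurd ⟨h1, h2⟩ h
    have := Filter.eventually_all.2 this
    exact this
  -- common values
  have hval : ∀ i j, Ψ D H F (0, (0, σ i)) = Ψ D H F (0, (0, σ j)) := by
    intro i j
    refine Prod.ext rfl ?_
    ext e
    have hab := out_ne hd e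
    simp only [Ψ]
    rw [Φ_base hD hH hab, Φ_base hD hH hab]
    by_cases hr : D.κ e.1.out.1 e.1.out.2 = D.r
    · rw [hr, hσr, hσr]
    · rw [hσ i _ hr, hσ j _ hr]
  obtain ⟨i0⟩ := (inferInstance : Nonempty ι)
  have hW : (⋂ i, Ψ D H F '' N i) ∈ 𝓝 (Ψ D H F (0, (0, σ i0))) := by
    rw [Filter.iInter_mem]
    intro i
    rw [hval i0 i, ← map_Ψ hD hH hd hG (hσ i)]
    exact image_mem_map (hN i)
  rw [← map_Ψ hD hH hd hG (hσ i0), Filter.mem_map] at hW
  have h1 : ∀ᶠ w in 𝓝 ((0, (0, σ i0)) : ℝ × Par V), Ψ D H F w ∈ ⋂ i, Ψ D H F '' N i := hW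
  have h2 := h1.curry_nhds
  have h3 : ∀ᶠ τ in 𝓝[>] (0:ℝ), ∀ᶠ x in 𝓝 ((0, σ i0) : Par V),
      Ψ D H F (τ, x) ∈ ⋂ i, Ψ D H F '' N i := h2.filter_mono nhdsWithin_le_nhds
  obtain ⟨τ, hτ1, hτ0⟩ := (h3.and self_mem_nhdsWithin).exists
  replace hτ0 : 0 < τ := hτ0
  obtain ⟨U, hU1, hU2, hU3⟩ := _root_.mem_nhds_iff.1 hτ1
  obtain ⟨p, ⟨x, hxU, hxp⟩, hp⟩ := exists_gen (cfg_open (H := H) hD hτ0.ne' U hU2)
    ⟨_, mem_image_of_mem _ hU3⟩
  have hx := hU1 hxU
  rw [mem_ofPred_eq, mem_iInter] at hx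
  have hx' : ∀ i, ∃ y : Par V, (τ, y) ∈ N i ∧ ∀ a b, s(a, b) ∈ F →
      Rigid.sq (cfg D H τ y) a b = Rigid.sq p a b := by
    intro i
    obtain ⟨⟨τ', y⟩, hy1, hy2⟩ := hx i
    have e1 : τ' = τ := congrArg Prod.fst hy2
    subst e1
    have e2 := congrArg Prod.snd hy2
    refine ⟨y, hy1, ?_⟩
    have : lens F (cfg D H τ' y) = lens F p := by
      ext e
      have e3 := congrFun e2 e
      rw [← hxp]
      exact sq_eq_of_Φ hD hH e3
    exact lens_eq_iff.1 this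
  choose y hy1 hy2 using hx'
  refine ⟨p, hp, fun i => cfg D H τ (y i), hy2, ?_⟩
  intro i j hij k l hk0 hkr hl0 hlr
  obtain ⟨k1, k2, k3, k4⟩ := htt k hk0 hkr
  obtain ⟨l1, l2, l3, l4⟩ := htt l hl0 hlr
  have harea : ∀ i m, m ≠ D.v0 → m ≠ D.r →
      0 < area (cfg D H τ (y i)) (ta m) (tb m) (tc m) * (ε m * σ i m) := by
    intro i m hm0 hmr
    obtain ⟨m1, m2, m3, m4⟩ := htt m hm0 hmr
    rw [area_cfg hD hH τ _ m1 m2 (by rw [m3]; exact m4), mul_assoc]
    exact mul_pos (pow_pos hτ0 _) (hy1 i m hm0 hmr)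
  have p1 := mul_pos (harea i k hk0 hkr) (harea i l hl0 hlr)
  have p2 := mul_pos (harea j k hk0 hkr) (harea j l hl0 hlr)
  have heq : area (cfg D H τ (y i)) (ta k) (tb k) (tc k) * area (cfg D H τ (y i)) (ta l) (tb l) (tc l)
      = area (cfg D H τ (y j)) (ta k) (tb k) (tc k) * area (cfg D H τ (y j)) (ta l) (tb l) (tc l) := by
    rw [area_mul, area_mul]
    simp only [hij]
  set P := area (cfg D H τ (y i)) (ta k) (tb k) (tc k) * area (cfg D H τ (y i)) (ta l) (tb l) (tc l)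
    with hP
  have p1' : 0 < P * (ε k * ε l) * (σ i k * σ i l) := by
    calc 0 < _ := p1
      _ = _ := by rw [hP]; ring
  have p2' : 0 < P * (ε k * ε l) * (σ j k * σ j l) := by
    calc 0 < _ := p2
      _ = _ := by rw [heq]; ring
  have s1 : (σ i k * σ i l) ^ 2 = 1 := by rw [mul_pow, hσ i k hkr, hσ i l hlr, one_mul]
  have s2 : (σ j k * σ j l) ^ 2 = 1 := by rw [mul_pow, hσ j k hkr, hσ j l hlr, one_mul]
  rcases sq_eq_sq_iff_eq_or_eq_neg.1 (s1.trans s2.symm) with h | h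
  · exact h
  · rw [h] at p1'
    exfalso
    linarith

end Pool.Agent.H135R2.RC
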