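import Pool.Agent.H135R2.RC.Tree

set_option autoImplicit false
set_option linter.unusedSectionVars false
set_option linter.unusedSimpArgs false

namespace Pool.Agent.H135R2.RC

open Set Pool.Agent.H135R2.Rigid

variable {V : Type*} [Fintype V] [DecidableEq V]

theorem ncard_decomp (F : Set (Sym2 V)) (_hd : ∀ c, s(c, c) ∉ F) (z : V) :
    F.ncard = deg F z + (off F z).ncard := by
  conv_lhs => rw [decomp F z]
  rw [ncard_union_eq _ (toFinite _) (toFinite _)]
  · congr 1
    rw [ncard_image_of_injective _ (fun a b h => Sym2.congr_right.1 h)]
    rfl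
  · rw [Set.disjoint_left]
    rintro e ⟨w, -, rfl⟩ ⟨-, h⟩
    exact h (Sym2.mem_mk_left _ _)

/-- The base placement. -/
def base (x y : V) : PD V where
  v0 := x
  r := y
  d := fun v k => if k = x then 1 else if k = y ∧ v = y then 1 else 0
  h := fun _ => 0
  κ := fun _ _ => y

theorem base_ok {x y : V} (hxy : x ≠ y) : Ok {x, y} (base x y) := by
  constructor
  · simp [base]
  · simp [base]
  · exact hxy
  · intro a b; rfl
  · intro a _ b _ _; simp [base]
  · intro a _ b _ _; exact hxy.symm
  · intro a ha b hb hab
    simp only [base]
    rw [Finset.mem_insert, Finset.mem_singleton] at ha hb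
    rcases ha with rfl | rfl <;> rcases hb with rfl | rfl
    · exact absurd rfl hab
    · simp [hxy.symm, hxy]
    · simp [hxy.symm, hxy]
    · exact absurd rfl hab
  · intro a _ b _ _ k hk hne
    exfalso
    apply hne
    simp only [base] at hk ⊢
    simp [hk]
  · intro k hk h0 hr
    rw [Finset.mem_insert, Finset.mem_singleton] at hk
    rcases hk with h | h
    · exact absurd h h0
    · exact absurd h hr
  · intro v k hk
    rw [Finset.mem_insert, Finset.mem_singleton] at hk
    push Not at hk
    simp [base, hk.1, hk.2]
  · intro y'
    refine ⟨fun k => if k = x then y' x else if k = y then y' y - y' x else 0, fun v hv => ?_⟩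
    have h1 : ∀ k, (base x y).d v k * (if k = x then y' x else if k = y then y' y - y' x else 0)
        = (if k = x then y' x else 0) + (if k = y then (if v = y then y' y - y' x else 0) else 0) := by
      intro k
      simp only [base]
      by_cases hk : k = x
      · subst hk; simp [hxy]
      · by_cases hk' : k = y
        · subst hk'; simp [hk]
        · simp [hk, hk']
    rw [Finset.sum_congr rfl fun k _ => h1 k, Finset.sum_add_distrib]
    simp only [Finset.sum_ite_eq', Finset.mem_univ, if_true]
    rw [Finset.mem_insert, Finset.mem_singleton] at hv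
    rcases hv with rfl | rfl
    · simp [hxy]
    · simp

theorem exists_good : ∀ (n : ℕ) (A : Finset V) (F : Set (Sym2 V)), A.card = n → 2 ≤ n →
    (∀ e ∈ F, ∀ v ∈ e, v ∈ A) → (∀ c, s(c, c) ∉ F) → Sparse F → F.ncard + 3 = 2 * n →
    ∃ D : PD V, Ok A D ∧ Good D F := by
  intro n
  induction n with
  | zero => intro A F _ h; omega
  | succ m ih =>
    intro A F hA h2 hFA hd hS hc
    rcases (by omega : m + 1 = 2 ∨ 2 ≤ m) with hm | hm
    · -- two vertices
      rw [hm] at hA hc
      obtain ⟨x, y, hxy, rfl⟩ := Finset.card_eq_two.1 hA
      refine ⟨base x y, base_ok hxy, ?_⟩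
      obtain ⟨e, he⟩ := ncard_eq_one.1 (by omega : F.ncard = 1)
      intro f hf hdv _ a b
      by_cases hab : s(a, b) ∈ F
      · have := hdv a
        unfold dv at this
        rw [Finset.sum_eq_single b] at this
        · exact this
        · intro c _ hcb
          apply hf.2
          intro h
          rw [he, mem_singleton_iff] at hab h
          rw [← hab] at h
          exact hcb (Sym2.congr_right.1 h)
        · intro h; exact absurd (Finset.mem_univ _) h
      · exact hf.2 a b hab
    · -- a vertex of degree at most three
      obtain ⟨z, hzA, hz3⟩ : ∃ z ∈ A, deg F z ≤ 3 := by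
        by_contra hcon
        push Not at hcon
        have h1 := sum_deg F hd
        have h3 : ∑ z ∈ A, deg F z ≤ ∑ z, deg F z :=
          Finset.sum_le_sum_of_subset (Finset.subset_univ A)
        have h4 : ∑ z ∈ A, 4 ≤ ∑ z ∈ A, deg F z :=
          Finset.sum_le_sum fun z hz => by have := hcon z hz; omega
        rw [Finset.sum_const, smul_eq_mul, hA] at h4
        omega
      have hzA' : z ∉ A.erase z := Finset.notMem_erase z A
      have hins : insert z (A.erase z) = A := Finset.insert_erase hzA
      have hcard : (A.erase z).card = m := by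
        rw [Finset.card_erase_of_mem hzA, hA]; rfl
      have hoffA : ∀ e ∈ off F z, ∀ v ∈ e, v ∈ A.erase z := by
        intro e he v hv
        refine Finset.mem_erase.2 ⟨?_, hFA e he.1 v hv⟩
        rintro rfl
        exact he.2 hv
      have hnbA : ∀ w ∈ nb F z, w ∈ A.erase z := by
        intro w hw
        exact Finset.mem_erase.2 ⟨nb_ne hd hw, hFA _ hw w (Sym2.mem_mk_right _ _)⟩
      have hoffS : Sparse (off F z) := hS.mono (off_subset F z)
      have hoffc : (off F z).ncard + 3 ≤ 2 * m := by
        have h1 := hoffS (A.erase z) (by omega)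
        have h3 : ins (off F z) (A.erase z) = off F z := by
          ext e
          exact ⟨fun h => h.1, fun h => ⟨h, hoffA e h⟩⟩
        rw [h3, hcard] at h1
        exact h1
      have hdec := ncard_decomp F hd z
      have hoffd : ∀ c, s(c, c) ∉ off F z := fun c h => hd c h.1
      have hFA' : ∀ e ∈ F, ∀ v ∈ e, v ∈ insert z (A.erase z) := by rw [hins]; exact hFA
      rcases (by omega : deg F z = 2 ∨ deg F z = 3) with h | h
      · obtain ⟨u, v, huv, hnb⟩ := ncard_eq_two.1 h
        obtain ⟨D, hD, hG⟩ := ih (A.erase z) (off F z) hcard hm hoffA hoffd hoffS (by omega)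
        have huA : u ∈ A.erase z := hnbA u (by
          change u ∈ {w | s(z, w) ∈ F}
          rw [hnb]; exact mem_insert _ _)
        refine ⟨ext D z u, ?_, step2 hD hzA' hFA' huA huv hnb hG⟩
        rw [← hins]
        exact ext_ok hD hzA' huA
      · obtain ⟨u, v, w, huv, huw, hvw, hnb⟩ := ncard_eq_three.1 h
        have main3 : ∀ u v w : V, u ≠ v → u ≠ w → v ≠ w → nb F z = {u, v, w} →
            (∀ S : Finset V, z ∉ S → u ∈ S → v ∈ S → ¬ TightOn F S) →
            ∃ D : PD V, Ok A D ∧ Good D F := by
          intro u v w huv huw hvw hnb hfree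
          have huA : u ∈ A.erase z := hnbA u (by rw [hnb]; exact mem_insert _ _)
          have hvA : v ∈ A.erase z := hnbA v (by rw [hnb]; simp)
          have hwA : w ∈ A.erase z := hnbA w (by rw [hnb]; simp)
          have huz : u ≠ z := (Finset.mem_erase.1 huA).1
          have hvz : v ≠ z := (Finset.mem_erase.1 hvA).1
          have hne : s(u, v) ∉ F := by
            intro huvF
            refine hfree {u, v} (by simp [huz.symm, hvz.symm]) (by simp) (by simp)
              ⟨(Finset.card_pair huv).ge, ?_⟩
            have h1 := hS {u, v} (Finset.card_pair huv).ge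
            rw [Finset.card_pair huv] at h1 ⊢
            have h3 : s(u, v) ∈ ins F {u, v} := by
              refine ⟨huvF, fun t ht => ?_⟩
              rw [Sym2.mem_iff] at ht
              rcases ht with rfl | rfl <;> simp
            have h4 : 0 < (ins F {u, v}).ncard := (ncard_pos (toFinite _)).2 ⟨_, h3⟩
            omega
          have hne' : s(u, v) ∉ off F z := fun h => hne h.1
          have hS' : Sparse (insert s(u, v) (off F z)) := by
            apply sparse_insert hoffS
            rintro S hu hv ⟨hS2, hSt⟩
            by_cases hzS : z ∈ S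
            · have h1 : 2 ≤ (S.erase z).card := by
                have : ({u, v} : Finset V) ⊆ S.erase z := by
                  intro t ht
                  rw [Finset.mem_insert, Finset.mem_singleton] at ht
                  rcases ht with rfl | rfl
                  · exact Finset.mem_erase.2 ⟨huz, hu⟩
                  · exact Finset.mem_erase.2 ⟨hvz, hv⟩
                calc 2 = ({u, v} : Finset V).card := (Finset.card_pair huv).symm
                  _ ≤ _ := Finset.card_le_card this
              have h3 := hoffS _ h1
              rw [Finset.card_erase_of_mem hzS] at h3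
              have h4 : ins (off F z) S ⊆ ins (off F z) (S.erase z) := by
                rintro e ⟨he, he'⟩
                refine ⟨he, fun t ht => Finset.mem_erase.2 ⟨?_, he' t ht⟩⟩
                rintro rfl
                exact he.2 ht
              have h5 := ncard_le_ncard h4 (toFinite _)
              omega
            · refine hfree S hzS hu hv ⟨hS2, ?_⟩
              have : ins F S = ins (off F z) S := by
                ext e
                constructor
                · rintro ⟨he, he'⟩
                  exact ⟨⟨he, fun h => hzS (he' z h)⟩, he'⟩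
                · rintro ⟨he, he'⟩
                  exact ⟨he.1, he'⟩
              rw [this]; exact hSt
          obtain ⟨D, hD, hG⟩ := ih (A.erase z) (insert s(u, v) (off F z)) hcard hm (by
            rintro e (rfl | he) t ht
            · rw [Sym2.mem_iff] at ht
              rcases ht with rfl | rfl
              · exact huA
              · exact hvA
            · exact hoffA e he t ht) (by
            rintro c (h | h)
            · rw [Sym2.eq_iff] at h
              rcases h with ⟨h1, h2⟩ | ⟨h1, h2⟩
              · exact huv (h1.symm.trans h2)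
              · exact huv (h2.symm.trans h1)
            · exact hoffd c h) hS' (by
            rw [ncard_insert_of_notMem hne' (toFinite _)]
            omega)
          obtain ⟨p, hp, hGp⟩ := step3 hD hzA' hFA' huA hvA hwA huv huw hvw hnb hne' hG
          refine ⟨ext D z p, ?_, hGp⟩
          rw [← hins]
          exact ext_ok hD hzA' hp
        have hmem : ∀ t ∈ ({u, v, w} : Set V), s(z, t) ∈ F := by
          intro t ht
          rw [← hnb] at ht
          exact ht
        have hnb' : nb F z = {u, v, w} := hnb
        rcases exists_free_pair hS hd huv huw hvw (hmem u (by simp)) (hmem v (by simp))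
          (hmem w (by simp)) with h1 | h1 | h1
        · exact main3 u v w huv huw hvw hnb' h1
        · refine main3 v w u hvw huv.symm huw.symm ?_ h1
          rw [hnb']; ext t; simp only [mem_insert_iff, mem_singleton_iff]; tauto
        · refine main3 u w v huw huv hvw.symm ?_ h1
          rw [hnb']; ext t; simp only [mem_insert_iff, mem_singleton_iff]; tauto

/-- Surjectivity obtained from goodness. -/
theorem Good.surj {D : PD V} {A : Finset V} (hD : Ok A D) {F : Set (Sym2 V)}
    (hd : ∀ c, s(c, c) ∉ F) (h : Good D F) (y : F → ℝ) :
    ∃ α θ : V → ℝ, θ D.r = 0 ∧ ∀ e : F, α e.1.out.1 - α e.1.out.2 +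
      (D.d e.1.out.1 (D.κ e.1.out.1 e.1.out.2) - D.d e.1.out.2 (D.κ e.1.out.1 e.1.out.2)) *
        θ (D.κ e.1.out.1 e.1.out.2) = y e := by
  classical
  have : Fintype F := Fintype.ofFinite F
  let T : (V → ℝ) × (V → ℝ) →ₗ[ℝ] (F → ℝ) :=
    { toFun := fun x e => x.1 e.1.out.1 - x.1 e.1.out.2 +
        ∑ k, lam D e.1.out.1 e.1.out.2 k * (if k = D.r then 0 else x.2 k)
      map_add' := by
        intro x x'
        ext e
        simp only [Prod.fst_add, Prod.snd_add, Pi.add_apply]
        have : ∀ k, lam D e.1.out.1 e.1.out.2 k * (if k = D.r then 0 else x.2 k + x'.2 k)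
            = lam D e.1.out.1 e.1.out.2 k * (if k = D.r then 0 else x.2 k)
              + lam D e.1.out.1 e.1.out.2 k * (if k = D.r then 0 else x'.2 k) := by
          intro k; split_ifs <;> ring
        rw [Finset.sum_congr rfl fun k _ => this k, Finset.sum_add_distrib]
        ring
      map_smul' := by
        intro c x
        ext e
        simp only [Prod.smul_fst, Prod.smul_snd, Pi.smul_apply, smul_eq_mul, RingHom.id_apply]
        have : ∀ k, lam D e.1.out.1 e.1.out.2 k * (if k = D.r then 0 else c * x.2 k)
            = c * (lam D e.1.out.1 e.1.out.2 k * (if k = D.r then 0 else x.2 k)) := by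
          intro k; split_ifs <;> ring
        rw [Finset.sum_congr rfl fun k _ => this k, ← Finset.mul_sum]
        ring }
  have hT : LinearMap.range T = ⊤ := by
    by_contra hne
    obtain ⟨x, -, hx⟩ := SetLike.exists_of_lt (lt_top_iff_ne_top.2 hne)
    obtain ⟨ω, hω1, hω2⟩ := Submodule.exists_dual_map_eq_bot_of_notMem hx inferInstance
    have hω : ∀ x, ω (T x) = 0 := by
      intro x
      have : ω (T x) ∈ Submodule.map ω (LinearMap.range T) := ⟨_, ⟨x, rfl⟩, rfl⟩
      rw [hω2] at this
      simpa using this
    -- weights
    let w : F → ℝ := fun e => ω (Pi.single e 1)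
    have hωw : ∀ y, ω y = ∑ e, w e * y e := by
      intro y
      have h1 : y = ∑ e, y e • (Pi.single e 1 : F → ℝ) := by
        ext e'
        simp [Finset.sum_apply, Pi.single_apply]
      conv_lhs => rw [h1]
      rw [map_sum]
      refine Finset.sum_congr rfl fun e _ => ?_
      rw [map_smul, smul_eq_mul, mul_comm]
    let f : V → V → ℝ := fun a b => ∑ e : F, w e * pf e.1.out.1 e.1.out.2 a b
    have hout : ∀ e : F, s(e.1.out.1, e.1.out.2) = e.1 := fun e => Quot.out_eq e.1
    have hf : IsFlow F f := by
      constructor
      · intro a b
        simp only [f]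
        rw [← Finset.sum_neg_distrib]
        refine Finset.sum_congr rfl fun e _ => ?_
        rw [(pf_flow e.1.out.1 e.1.out.2).1 a b]; ring
      · intro a b hab
        refine Finset.sum_eq_zero fun e _ => ?_
        rw [(pf_flow e.1.out.1 e.1.out.2).2 a b, mul_zero]
        rw [mem_singleton_iff, hout e]
        rintro h1
        exact hab (h1 ▸ e.2)
    have hdv : ∀ v, dv f v = 0 := by
      intro v
      have h1 := hω (Pi.single v 1, 0)
      rw [hωw] at h1
      have h2 : dv f v = ∑ e : F, w e * dv (pf e.1.out.1 e.1.out.2) v := by
        unfold dv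
        simp only [f]
        rw [Finset.sum_comm]
        exact Finset.sum_congr rfl fun e _ => by rw [Finset.mul_sum]
      rw [h2, ← h1]
      refine Finset.sum_congr rfl fun e _ => ?_
      rw [dv_pf]
      simp [T, Pi.single_apply, eq_comm]
    have hL : ∀ k, k ≠ D.r → L D f k = 0 := by
      intro k hk
      have h1 := hω (0, Pi.single k 1)
      rw [hωw] at h1
      have h2 : L D f k = ∑ e : F, w e * L D (pf e.1.out.1 e.1.out.2) k := by
        unfold L
        simp only [f, Finset.sum_mul, Finset.mul_sum]
        calc ∑ a, ∑ b, ∑ e : F, w e * pf e.1.out.1 e.1.out.2 a b * lam D a b k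
            = ∑ a, ∑ e : F, ∑ b, w e * pf e.1.out.1 e.1.out.2 a b * lam D a b k :=
              Finset.sum_congr rfl fun a _ => Finset.sum_comm
          _ = ∑ e : F, ∑ a, ∑ b, w e * pf e.1.out.1 e.1.out.2 a b * lam D a b k :=
              Finset.sum_comm
          _ = _ := by
              refine Finset.sum_congr rfl fun e _ => Finset.sum_congr rfl fun a _ =>
                Finset.sum_congr rfl fun b _ => by ring
      rw [h2]
      have h3 : ∀ e : F, w e * L D (pf e.1.out.1 e.1.out.2) k = 2 * (w e * T (0, Pi.single k 1) e) := by
        intro e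
        rw [L_pf hD]
        have : T (0, Pi.single k 1) e = lam D e.1.out.1 e.1.out.2 k := by
          simp only [T, LinearMap.coe_mk, AddHom.coe_mk, Pi.zero_apply, sub_self, zero_add]
          rw [Finset.sum_eq_single k]
          · simp [hk]
          · intro k' _ hk'
            simp [Pi.single_eq_of_ne hk']
          · intro h; exact absurd (Finset.mem_univ _) h
        rw [this]; ring
      rw [Finset.sum_congr rfl fun e _ => h3 e, ← Finset.mul_sum, h1, mul_zero]
    have hf0 := h f hf hdv hL
    have hw : ∀ e, w e = 0 := by
      intro e
      have h1 := hf0 e.1.out.1 e.1.out.2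
      simp only [f] at h1
      rw [Finset.sum_eq_single e] at h1
      · rw [pf_self, mul_one] at h1
        · exact h1
        · intro h2
          have := hout e
          rw [h2] at this
          exact hd _ (this ▸ e.2)
      · intro e' _ hne
        rw [(pf_flow e'.1.out.1 e'.1.out.2).2, mul_zero]
        rw [mem_singleton_iff, hout e, hout e']
        exact fun h => hne (Subtype.ext h.symm)
      · intro h; exact absurd (Finset.mem_univ _) h
    apply hω1
    rw [hωw]
    exact Finset.sum_eq_zero fun e _ => by rw [hw e, zero_mul]
  obtain ⟨⟨α, θ⟩, hx⟩ := LinearMap.range_eq_top.1 hT y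
  refine ⟨α, fun k => if k = D.r then 0 else θ k, by simp, fun e => ?_⟩
  have h1 := congrFun hx e
  simp only [T, LinearMap.coe_mk, AddHom.coe_mk] at h1
  rw [← h1]
  congr 1
  rw [Finset.sum_eq_single (D.κ e.1.out.1 e.1.out.2)]
  · simp [lam]
  · intro k _ hk
    simp [lam, hk]
  · intro h; exact absurd (Finset.mem_univ _) h

end Pool.Agent.H135R2.RC
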