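import Pool.Agent.H135R2.RC.Comb
import Pool.Agent.H135R2.Rigid.Count

set_option autoImplicit false
set_option linter.unusedSectionVars false
set_option linter.unusedSimpArgs false

namespace Pool.Agent.H135R2.RC

open Set Pool.Agent.H135R2.Rigid

/-- Placement data: the vertex `v` will be placed at height `∑ k, d v k * τ ^ h k * η k` and
at horizontal position about `∑ k, d v k * τ ^ (2 * h k)`; `κ a b` is the leading index of the
difference of the positions of `a` and `b`. -/
structure PD (V : Type*) where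
  v0 : V
  r : V
  d : V → V → ℝ
  h : V → ℕ
  κ : V → V → V

variable {V : Type*} [Fintype V] [DecidableEq V]

/-- The conditions on placement data for the vertex set `A`. -/
structure Ok (A : Finset V) (D : PD V) : Prop where
  v0A : D.v0 ∈ A
  rA : D.r ∈ A
  ne : D.v0 ≠ D.r
  symm : ∀ a b, D.κ a b = D.κ b a
  κA : ∀ a ∈ A, ∀ b ∈ A, a ≠ b → D.κ a b ∈ A
  κne : ∀ a ∈ A, ∀ b ∈ A, a ≠ b → D.κ a b ≠ D.v0
  sq1 : ∀ a ∈ A, ∀ b ∈ A, a ≠ b → (D.d a (D.κ a b) - D.d b (D.κ a b)) ^ 2 = 1
  hlt : ∀ a ∈ A, ∀ b ∈ A, a ≠ b → ∀ k, k ≠ D.κ a b → D.d a k ≠ D.d b k → D.h (D.κ a b) < D.h k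
  tri : ∀ k ∈ A, k ≠ D.v0 → k ≠ D.r → ∃ a ∈ A, ∃ b ∈ A, ∃ c ∈ A, a ≠ b ∧ a ≠ c ∧
    D.κ a b = k ∧ D.h (D.κ a c) < D.h k
  supp : ∀ v k, k ∉ A → D.d v k = 0
  surj : ∀ y : V → ℝ, ∃ η : V → ℝ, ∀ v ∈ A, ∑ k, D.d v k * η k = y v

/-- Antisymmetric functions supported on `F`. -/
def IsFlow (F : Set (Sym2 V)) (f : V → V → ℝ) : Prop :=
  (∀ a b, f b a = - f a b) ∧ ∀ a b, s(a, b) ∉ F → f a b = 0

theorem IsFlow.diag {F : Set (Sym2 V)} {f : V → V → ℝ} (h : IsFlow F f) (a : V) : f a a = 0 := by
  have := h.1 a a; linarith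

theorem IsFlow.mono {F F' : Set (Sym2 V)} (hF : F ⊆ F') {f : V → V → ℝ} (h : IsFlow F f) :
    IsFlow F' f := ⟨h.1, fun a b hab => h.2 a b fun h' => hab (hF h')⟩

/-- Divergence. -/
def dv (f : V → V → ℝ) (v : V) : ℝ := ∑ b, f v b

/-- The vector of the pair `a b`. -/
def lam (D : PD V) (a b k : V) : ℝ := if k = D.κ a b then D.d a k - D.d b k else 0

theorem lam_symm {A : Finset V} {D : PD V} (hD : Ok A D) (a b k : V) :
    lam D b a k = - lam D a b k := by
  unfold lam
  rw [hD.symm b a]
  split_ifs <;> ring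

/-- The loads of a flow. -/
def L (D : PD V) (f : V → V → ℝ) (k : V) : ℝ := ∑ a, ∑ b, f a b * lam D a b k

/-- The key independence property. -/
def Good (D : PD V) (F : Set (Sym2 V)) : Prop :=
  ∀ f, IsFlow F f → (∀ v, dv f v = 0) → (∀ k, k ≠ D.r → L D f k = 0) → ∀ a b, f a b = 0

theorem Good.mono {D : PD V} {F F' : Set (Sym2 V)} (h : Good D F') (hF : F ⊆ F') : Good D F :=
  fun f hf => h f (hf.mono hF)

theorem L_out {A : Finset V} {D : PD V} (hD : Ok A D) {F : Set (Sym2 V)}
    (hF : ∀ e ∈ F, ∀ v ∈ e, v ∈ A) {f : V → V → ℝ} (hf : IsFlow F f) {z : V} (hz : z ∉ A) :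
    L D f z = 0 := by
  unfold L
  refine Finset.sum_eq_zero fun a _ => Finset.sum_eq_zero fun b _ => ?_
  by_cases hab : s(a, b) ∈ F
  · by_cases h : a = b
    · rw [h, hf.diag, zero_mul]
    · have ha := hF _ hab a (Sym2.mem_mk_left _ _)
      have hb := hF _ hab b (Sym2.mem_mk_right _ _)
      have := hD.κA a ha b hb h
      have h2 : z ≠ D.κ a b := by rintro rfl; exact hz this
      rw [lam, if_neg h2, mul_zero]
  · rw [hf.2 a b hab, zero_mul]

/-- New vertex `z` placed next to `u`. -/
def ext (D : PD V) (z u : V) : PD V where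
  v0 := D.v0
  r := D.r
  d := fun v k => if k = z then (if v = z then 1 else 0) else D.d (if v = z then u else v) k
  h := fun k => if k = z then 1 + Finset.univ.sup D.h else D.h k
  κ := fun a b => if (a = z ∧ b = u) ∨ (a = u ∧ b = z) then z
    else D.κ (if a = z then u else a) (if b = z then u else b)

theorem ext_ok {A : Finset V} {D : PD V} (hD : Ok A D) {z u : V} (hz : z ∉ A) (hu : u ∈ A) :
    Ok (insert z A) (ext D z u) := by
  have huz : u ≠ z := by rintro rfl; exact hz hu
  have hsup : ∀ k, D.h k ≤ Finset.univ.sup D.h := fun k => Finset.le_sup (Finset.mem_univ k)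
  -- the classification of pairs
  have hφ : ∀ a ∈ insert z A, (if a = z then u else a) ∈ A := by
    intro a ha
    by_cases h : a = z
    · rw [if_pos h]; exact hu
    · rw [if_neg h]; exact (Finset.mem_insert.1 ha).resolve_left h
  have key : ∀ a ∈ insert z A, ∀ b ∈ insert z A, a ≠ b →
      (((a = z ∧ b = u) ∨ (a = u ∧ b = z)) ∧ (ext D z u).κ a b = z) ∨
      ((if a = z then u else a) ≠ (if b = z then u else b) ∧
        (ext D z u).κ a b = D.κ (if a = z then u else a) (if b = z then u else b)) := by
    intro a ha b hb hab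
    by_cases h : (a = z ∧ b = u) ∨ (a = u ∧ b = z)
    · left
      exact ⟨h, by simp only [ext]; rw [if_pos h]⟩
    · right
      refine ⟨?_, by simp only [ext]; rw [if_neg h]⟩
      push Not at h
      by_cases h1 : a = z
      · rw [if_pos h1, if_neg (fun h2 => hab (h1.trans h2.symm))]
        exact fun h3 => h.1 h1 h3.symm
      · rw [if_neg h1]
        by_cases h2 : b = z
        · rw [if_pos h2]; exact fun h3 => h.2 h3 h2
        · rw [if_neg h2]; exact hab
  constructor
  · exact Finset.mem_insert_of_mem hD.v0A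
  · exact Finset.mem_insert_of_mem hD.rA
  · exact hD.ne
  · intro a b
    simp only [ext]
    by_cases h : (a = z ∧ b = u) ∨ (a = u ∧ b = z)
    · have h' : (b = z ∧ a = u) ∨ (b = u ∧ a = z) := by tauto
      rw [if_pos h, if_pos h']
    · have h' : ¬ ((b = z ∧ a = u) ∨ (b = u ∧ a = z)) := by tauto
      rw [if_neg h, if_neg h']
      exact hD.symm _ _
  · intro a ha b hb hab
    rcases key a ha b hb hab with ⟨-, h⟩ | ⟨h1, h⟩
    · rw [h]; exact Finset.mem_insert_self _ _
    · rw [h]; exact Finset.mem_insert_of_mem (hD.κA _ (hφ a ha) _ (hφ b hb) h1)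
  · intro a ha b hb hab
    rcases key a ha b hb hab with ⟨-, h⟩ | ⟨h1, h⟩
    · rw [h]; intro h'; rw [h'] at hz; exact hz hD.v0A
    · rw [h]; exact hD.κne _ (hφ a ha) _ (hφ b hb) h1
  · intro a ha b hb hab
    rcases key a ha b hb hab with ⟨h1, h⟩ | ⟨h1, h⟩
    · rw [h]
      simp only [ext]
      rcases h1 with ⟨rfl, rfl⟩ | ⟨rfl, rfl⟩
      · simp [huz]
      · simp [huz]
    · have h2 := hD.κA _ (hφ a ha) _ (hφ b hb) h1
      have h3 := hD.sq1 _ (hφ a ha) _ (hφ b hb) h1
      rw [h]
      have h4 : D.κ (if a = z then u else a) (if b = z then u else b) ≠ z := by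
        intro h5; rw [h5] at h2; exact hz h2
      simp only [ext]
      rw [if_neg h4, if_neg h4]
      exact h3
  · intro a ha b hb hab k hk hne
    rcases key a ha b hb hab with ⟨h1, h⟩ | ⟨h1, h⟩
    · exfalso
      rw [h] at hk
      apply hne
      simp only [ext]
      rw [if_neg hk, if_neg hk]
      rcases h1 with ⟨rfl, rfl⟩ | ⟨rfl, rfl⟩
      · simp [huz]
      · simp [huz]
    · have h2 := hD.κA _ (hφ a ha) _ (hφ b hb) h1
      have h4 : D.κ (if a = z then u else a) (if b = z then u else b) ≠ z := by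
        intro h5; rw [h5] at h2; exact hz h2
      rw [h] at hk ⊢
      simp only [ext] at hne ⊢
      rw [if_neg h4]
      by_cases hkz : k = z
      · rw [if_pos hkz]
        have := hsup (D.κ (if a = z then u else a) (if b = z then u else b))
        omega
      · rw [if_neg hkz]
        rw [if_neg hkz, if_neg hkz] at hne
        exact hD.hlt _ (hφ a ha) _ (hφ b hb) h1 k hk hne
  · intro k hk hk0 hkr
    have hA : ∀ a ∈ A, a ≠ z := by rintro a ha rfl; exact hz ha
    rcases Finset.mem_insert.1 hk with rfl | hkA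
    · -- the new index
      obtain ⟨c, hc, hcu⟩ : ∃ c ∈ A, c ≠ u := by
        by_cases h : D.v0 = u
        · exact ⟨D.r, hD.rA, fun h' => hD.ne (h.trans h'.symm)⟩
        · exact ⟨D.v0, hD.v0A, h⟩
      refine ⟨k, Finset.mem_insert_self _ _, u, Finset.mem_insert_of_mem hu, c,
        Finset.mem_insert_of_mem hc, huz.symm, (hA c hc).symm, ?_, ?_⟩
      · simp only [ext]; simp
      · have h1 : (ext D k u).κ k c = D.κ u c := by
          simp only [ext]
          rw [if_neg (by
            rintro (⟨-, h⟩ | ⟨h, -⟩)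
            · exact hcu h
            · exact huz h.symm), if_neg (hA c hc)]
          simp
        rw [h1]
        have h2 := hD.κA u hu c hc hcu.symm
        simp only [ext]
        rw [if_neg (hA _ h2)]
        have := hsup (D.κ u c)
        simp only [if_true]
        omega
    · obtain ⟨a, ha, b, hb, c, hc, hab, hac, h1, h2⟩ := hD.tri k hkA hk0 hkr
      have hk' : ∀ a ∈ A, ∀ b ∈ A, (ext D z u).κ a b = D.κ a b := by
        intro a ha b hb
        simp only [ext]
        rw [if_neg (by
            rintro (⟨h, -⟩ | ⟨-, h⟩)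
            · exact hA a ha h
            · exact hA b hb h), if_neg (hA a ha), if_neg (hA b hb)]
      refine ⟨a, Finset.mem_insert_of_mem ha, b, Finset.mem_insert_of_mem hb, c,
        Finset.mem_insert_of_mem hc, hab, hac, ?_, ?_⟩
      · rw [hk' a ha b hb, h1]
      · rw [hk' a ha c hc]
        simp only [ext]
        rw [if_neg (hA _ (hD.κA a ha c hc hac)), if_neg (hA _ hkA)]
        exact h2
  · intro v k hk
    have h1 : k ≠ z := by rintro rfl; exact hk (Finset.mem_insert_self _ _)
    simp only [ext]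
    rw [if_neg h1]
    exact hD.supp _ k fun h => hk (Finset.mem_insert_of_mem h)
  · intro y
    obtain ⟨η, hη⟩ := hD.surj y
    have hA : ∀ a ∈ A, a ≠ z := by rintro a ha rfl; exact hz ha
    refine ⟨Function.update η z (y z - y u), fun v hv => ?_⟩
    rcases Finset.mem_insert.1 hv with rfl | hvA
    · have h1 : ∀ k, (ext D v u).d v k * Function.update η v (y v - y u) k
          = D.d u k * η k + (if k = v then y v - y u else 0) := by
        intro k
        simp only [ext]
        by_cases hk : k = v
        · subst hk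
          simp [hD.supp u k hz]
        · simp [hk]
      rw [Finset.sum_congr rfl fun k _ => h1 k, Finset.sum_add_distrib, hη u hu]
      simp
    · have h1 : ∀ k, (ext D z u).d v k * Function.update η z (y z - y u) k = D.d v k * η k := by
        intro k
        simp only [ext]
        by_cases hk : k = z
        · subst hk
          simp [hD.supp v k hz, hA v hvA]
        · simp [hk, hA v hvA]
      rw [Finset.sum_congr rfl fun k _ => h1 k, hη v hvA]

/-- Splitting a symmetric double sum at `z`. -/
theorem sum_split {g : V → V → ℝ} (hs : ∀ a b, g b a = g a b) {z : V} (hz : g z z = 0) :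
    ∑ a, ∑ b, g a b = ∑ a, ∑ b, (if a = z ∨ b = z then 0 else g a b) + 2 * ∑ b, g z b := by
  have h1 : ∀ a b, g a b = (if a = z ∨ b = z then 0 else g a b) +
      ((if a = z then g a b else 0) + (if b = z then g a b else 0)) := by
    intro a b
    by_cases ha : a = z
    · by_cases hb : b = z
      · subst ha; subst hb; simp [hz]
      · simp [ha, hb]
    · by_cases hb : b = z
      · simp [ha, hb]
      · simp [ha, hb]
  have h2 : ∑ a, ∑ b, (if a = z then g a b else 0) = ∑ b, g z b := by
    rw [Finset.sum_eq_single z]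
    · simp
    · intro a _ ha; simp [ha]
    · intro h; exact absurd (Finset.mem_univ _) h
  have h3 : ∑ a, ∑ b, (if b = z then g a b else 0) = ∑ b, g z b := by
    refine Finset.sum_congr rfl fun a _ => ?_
    simp only [Finset.sum_ite_eq', Finset.mem_univ, if_true]
    exact hs z a
  calc ∑ a, ∑ b, g a b = ∑ a, ∑ b, ((if a = z ∨ b = z then 0 else g a b) +
      ((if a = z then g a b else 0) + (if b = z then g a b else 0))) :=
        Finset.sum_congr rfl fun a _ => Finset.sum_congr rfl fun b _ => h1 a b
    _ = _ := by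
      simp only [Finset.sum_add_distrib]
      rw [h2, h3]; ring

/-- Removing `z` from a flow. -/
def cut (f : V → V → ℝ) (z : V) : V → V → ℝ := fun a b => if a = z ∨ b = z then 0 else f a b

theorem cut_flow {F : Set (Sym2 V)} {f : V → V → ℝ} (hf : IsFlow F f) (z : V) :
    IsFlow (off F z) (cut f z) := by
  constructor
  · intro a b
    unfold cut
    by_cases h : a = z ∨ b = z
    · rw [if_pos h, if_pos h.symm, neg_zero]
    · rw [if_neg h, if_neg (fun h' => h h'.symm)]
      exact hf.1 a b
  · intro a b hab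
    unfold cut
    by_cases h : a = z ∨ b = z
    · rw [if_pos h]
    · rw [if_neg h]
      apply hf.2
      intro h'
      apply hab
      refine ⟨h', ?_⟩
      rw [Sym2.mem_iff]
      push Not at h ⊢
      exact ⟨h.1.symm, h.2.symm⟩

theorem dv_cut {F : Set (Sym2 V)} {f : V → V → ℝ} (hf : IsFlow F f) {z v : V} (hv : v ≠ z) :
    dv (cut f z) v = dv f v + f z v := by
  have h1 : ∀ b, cut f z v b = f v b - (if b = z then f v b else 0) := by
    intro b
    unfold cut
    by_cases hb : b = z <;> simp [hb, hv]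
  unfold dv
  rw [Finset.sum_congr rfl fun b _ => h1 b, Finset.sum_sub_distrib]
  simp only [Finset.sum_ite_eq', Finset.mem_univ, if_true]
  have := hf.1 z v
  linarith

theorem dv_cut_self (f : V → V → ℝ) (z : V) : dv (cut f z) z = 0 := by
  unfold dv cut
  simp

section extL

variable {A : Finset V} {D : PD V} {F : Set (Sym2 V)} {f : V → V → ℝ} {z p : V}

theorem ext_lam_of_ne (D : PD V) {z p a b k : V} (ha : a ≠ z) (hb : b ≠ z) (hk : k ≠ z) :
    lam (ext D z p) a b k = lam D a b k := by
  unfold lam
  simp only [ext]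
  simp [ha, hb, hk]

theorem ext_lam_z (D : PD V) {z p b k : V} (hpz : p ≠ z) (hb : b ≠ z) (hbp : b ≠ p) (hk : k ≠ z) :
    lam (ext D z p) z b k = lam D p b k := by
  unfold lam
  simp only [ext]
  simp [hb, hk, hbp, hpz.symm]

theorem L_ext_z (hD : Ok A D) (hz : z ∉ A) (hp : p ∈ A) (hF : ∀ e ∈ F, ∀ v ∈ e, v ∈ insert z A)
    (hf : IsFlow F f) : L (ext D z p) f z = 2 * f z p := by
  have hE := ext_ok hD hz hp
  have hA : ∀ a ∈ A, a ≠ z := by rintro a ha rfl; exact hz ha
  have hpz := hA p hp
  unfold L
  rw [sum_split (z := z) (g := fun a b => f a b * lam (ext D z p) a b z)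
    (fun a b => by rw [hf.1 a b, lam_symm hE]; ring)
    (by rw [hf.diag, zero_mul])]
  have h1 : ∑ a, ∑ b, (if a = z ∨ b = z then 0 else f a b * lam (ext D z p) a b z) = 0 := by
    refine Finset.sum_eq_zero fun a _ => Finset.sum_eq_zero fun b _ => ?_
    by_cases h : a = z ∨ b = z
    · rw [if_pos h]
    · rw [if_neg h]
      push Not at h
      by_cases hab : s(a, b) ∈ F
      · by_cases hab' : a = b
        · rw [hab', hf.diag, zero_mul]
        · have ha := (Finset.mem_insert.1 (hF _ hab a (Sym2.mem_mk_left _ _))).resolve_left h.1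
          have hb := (Finset.mem_insert.1 (hF _ hab b (Sym2.mem_mk_right _ _))).resolve_left h.2
          have h2 := hD.κA a ha b hb hab'
          unfold lam
          have h3 : (ext D z p).κ a b = D.κ a b := by
            simp only [ext]; simp [h.1, h.2]
          rw [h3, if_neg (hA _ h2).symm, mul_zero]
      · rw [hf.2 a b hab, zero_mul]
  have h2 : ∑ b, f z b * lam (ext D z p) z b z = f z p := by
    rw [Finset.sum_eq_single p]
    · unfold lam
      simp only [ext]
      simp [hpz]
    · intro b _ hb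
      by_cases hzb : s(z, b) ∈ F
      · by_cases hbz : b = z
        · rw [hbz, hf.diag, zero_mul]
        · have hbA := (Finset.mem_insert.1 (hF _ hzb b (Sym2.mem_mk_right _ _))).resolve_left hbz
          have h2 := hD.κA p hp b hbA hb.symm
          unfold lam
          have h3 : (ext D z p).κ z b = D.κ p b := by
            simp only [ext]; simp [hb, hbz, hpz.symm]
          rw [h3, if_neg (hA _ h2).symm, mul_zero]
      · rw [hf.2 z b hzb, zero_mul]
    · intro h; exact absurd (Finset.mem_univ _) h
  rw [h1, h2, zero_add]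

theorem L_ext (hD : Ok A D) (hz : z ∉ A) (hp : p ∈ A) (hf : IsFlow F f) (h0 : f z p = 0)
    {k : V} (hk : k ≠ z) :
    L (ext D z p) f k = L D (cut f z) k + 2 * ∑ b, f z b * lam D p b k := by
  have hE := ext_ok hD hz hp
  have hA : ∀ a ∈ A, a ≠ z := by rintro a ha rfl; exact hz ha
  have hpz := hA p hp
  unfold L
  rw [sum_split (z := z) (g := fun a b => f a b * lam (ext D z p) a b k)
    (fun a b => by rw [hf.1 a b, lam_symm hE]; ring)
    (by rw [hf.diag, zero_mul])]
  congr 1
  · refine Finset.sum_congr rfl fun a _ => Finset.sum_congr rfl fun b _ => ?_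
    unfold cut
    by_cases h : a = z ∨ b = z
    · rw [if_pos h, if_pos h, zero_mul]
    · rw [if_neg h, if_neg h]
      push Not at h
      rw [ext_lam_of_ne D h.1 h.2 hk]
  · congr 1
    refine Finset.sum_congr rfl fun b _ => ?_
    by_cases hb : b = z
    · rw [hb, hf.diag, zero_mul, zero_mul]
    · by_cases hbp : b = p
      · rw [hbp, h0, zero_mul, zero_mul]
      · rw [ext_lam_z D hpz hb hbp hk]

/-- If nothing flows through `z`, the flow vanishes. -/
theorem eq_zero_of_z (hD : Ok A D) (hz : z ∉ A) (hp : p ∈ A)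
    (hF : ∀ e ∈ F, ∀ v ∈ e, v ∈ insert z A) (hG : Good D (off F z))
    (hf : IsFlow F f) (hdv : ∀ v, dv f v = 0)
    (hL : ∀ k, k ≠ D.r → L (ext D z p) f k = 0) (h0 : ∀ b, f z b = 0) : ∀ a b, f a b = 0 := by
  have hoff : ∀ e ∈ off F z, ∀ v ∈ e, v ∈ A := by
    intro e he v hv
    rcases Finset.mem_insert.1 (hF e he.1 v hv) with rfl | h
    · exact absurd hv he.2
    · exact h
  have h1 := hG (cut f z) (cut_flow hf z) ?_ ?_
  · intro a b
    by_cases ha : a = z
    · rw [ha]; exact h0 b
    · by_cases hb : b = z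
      · rw [hb, hf.1 z a, h0, neg_zero]
      · have := h1 a b
        unfold cut at this
        rw [if_neg (by tauto)] at this
        exact this
  · intro v
    by_cases hv : v = z
    · rw [hv]; exact dv_cut_self f z
    · rw [dv_cut hf hv, hdv, h0, add_zero]
  · intro k hk
    by_cases hkz : k = z
    · rw [hkz]; exact L_out hD hoff (cut_flow hf z) hz
    · have := hL k hk
      rw [L_ext hD hz hp hf (h0 p) hkz] at this
      simpa [h0] using this

end extL

/-- The 0-extension step. -/
theorem step2 {A : Finset V} {D : PD V} (hD : Ok A D) {F : Set (Sym2 V)} {z u v : V} (hz : z ∉ A)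
    (hF : ∀ e ∈ F, ∀ v ∈ e, v ∈ insert z A) (huA : u ∈ A) (_huv : u ≠ v)
    (hnb : nb F z = {u, v}) (hG : Good D (off F z)) : Good (ext D z u) F := by
  intro f hf hdv hL
  have hzr : z ≠ D.r := by rintro rfl; exact hz hD.rA
  have h1 := hL z hzr
  rw [L_ext_z hD hz huA hF hf] at h1
  have h2 : f z u = 0 := by linarith
  have h3 : ∀ b, b ≠ u → b ≠ v → f z b = 0 := by
    intro b hbu hbv
    apply hf.2
    intro h
    have : b ∈ nb F z := h
    rw [hnb] at this
    rcases this with h | h
    · exact hbu h
    · exact hbv h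
  have h4 : f z v = 0 := by
    have := hdv z
    unfold dv at this
    rw [Finset.sum_eq_single v] at this
    · exact this
    · intro b _ hb
      by_cases hbu : b = u
      · rw [hbu]; exact h2
      · exact h3 b hbu hb
    · intro h; exact absurd (Finset.mem_univ _) h
  refine eq_zero_of_z hD hz huA hF hG hf hdv hL fun b => ?_
  by_cases hbu : b = u
  · rw [hbu]; exact h2
  · by_cases hbv : b = v
    · rw [hbv]; exact h4
    · exact h3 b hbu hbv

theorem dv_smul (c : ℝ) (f : V → V → ℝ) (v : V) : dv (fun a b => c * f a b) v = c * dv f v := by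
  unfold dv; rw [Finset.mul_sum]

theorem L_smul (D : PD V) (c : ℝ) (f : V → V → ℝ) (k : V) :
    L D (fun a b => c * f a b) k = c * L D f k := by
  unfold L
  rw [Finset.mul_sum]
  refine Finset.sum_congr rfl fun a _ => ?_
  rw [Finset.mul_sum]
  exact Finset.sum_congr rfl fun b _ => by ring

theorem bad_step {A : Finset V} {D : PD V} (hD : Ok A D) {F : Set (Sym2 V)} {z p q s : V}
    (hz : z ∉ A) (hF : ∀ e ∈ F, ∀ v ∈ e, v ∈ insert z A) (hpA : p ∈ A)
    (_hpq : p ≠ q) (_hps : p ≠ s) (hqs : q ≠ s) (hqz : q ≠ z) (hsz : s ≠ z)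
    (hnb : nb F z = {p, q, s}) (hG : Good D (off F z)) (hbad : ¬ Good (ext D z p) F) :
    ∃ c, IsFlow (off F z) c ∧ (∀ t, dv c t = (if t = q then 1 else 0) - (if t = s then 1 else 0)) ∧
      ∀ k, k ≠ D.r → k ≠ z → L D c k = -2 * (lam D p q k - lam D p s k) := by
  unfold Good at hbad
  push Not at hbad
  obtain ⟨f, hf, hdv, hL, a, b, hab⟩ := hbad
  have hzr : z ≠ D.r := by rintro rfl; exact hz hD.rA
  have h1 := hL z hzr
  rw [L_ext_z hD hz hpA hF hf] at h1
  have h2 : f z p = 0 := by linarith
  have h3 : ∀ b, b ≠ p → b ≠ q → b ≠ s → f z b = 0 := by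
    intro b hbp hbq hbs
    apply hf.2
    intro h
    have : b ∈ nb F z := h
    rw [hnb] at this
    rcases this with h | h | h
    · exact hbp h
    · exact hbq h
    · exact hbs h
  have h5 : ∀ b, f z b = (if b = q then f z q else 0) + (if b = s then f z s else 0) := by
    intro b
    by_cases hbq : b = q
    · subst hbq; simp [hqs]
    · by_cases hbs : b = s
      · subst hbs; simp [hbq]
      · by_cases hbp : b = p
        · subst hbp; simp [hbq, hbs, h2]
        · simp [hbq, hbs, h3 b hbp hbq hbs]
  have h4 : f z s = - f z q := by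
    have := hdv z
    unfold dv at this
    rw [Finset.sum_congr rfl fun b _ => h5 b, Finset.sum_add_distrib] at this
    simp only [Finset.sum_ite_eq', Finset.mem_univ, if_true] at this
    linarith
  have hβ : f z q ≠ 0 := by
    intro h0
    apply hab
    refine eq_zero_of_z hD hz hpA hF hG hf hdv hL (fun b => ?_) a b
    rw [h5 b, h4, h0]; simp
  refine ⟨fun a b => (f z q)⁻¹ * cut f z a b, ?_, ?_, ?_⟩
  · have := cut_flow hf z
    refine ⟨fun a b => ?_, fun a b hab => ?_⟩
    · simp only []
      rw [this.1 a b]; ring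
    · simp only []
      rw [this.2 a b hab, mul_zero]
  · intro t
    rw [dv_smul]
    by_cases ht : t = z
    · subst ht
      rw [dv_cut_self]
      simp [hqz.symm, hsz.symm]
    · rw [dv_cut hf ht, hdv, zero_add, h5 t, h4]
      by_cases htq : t = q
      · subst htq; simp [hqs, hβ]
      · by_cases hts : t = s
        · subst hts; simp [htq, hβ]
        · simp [htq, hts]
  · intro k hk hkz
    rw [L_smul]
    have h6 := hL k hk
    rw [L_ext hD hz hpA hf h2 hkz] at h6
    have h7 : ∑ b, f z b * lam D p b k = f z q * lam D p q k - f z q * lam D p s k := by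
      have : ∀ b, f z b * lam D p b k = (if b = q then f z q * lam D p b k else 0) +
          (if b = s then f z s * lam D p b k else 0) := by
        intro b
        rw [h5 b, add_mul]
        simp only [ite_mul, zero_mul]
      rw [Finset.sum_congr rfl fun b _ => this b, Finset.sum_add_distrib]
      simp only [Finset.sum_ite_eq', Finset.mem_univ, if_true]
      rw [h4]; ring
    rw [h7] at h6
    have h8 : L D (cut f z) k = -2 * (f z q * (lam D p q k - lam D p s k)) := by linarith
    rw [h8]
    field_simp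

/-- Unit flow along a pair. -/
def pf (u v : V) : V → V → ℝ := fun a b =>
  (if a = u ∧ b = v then 1 else 0) - (if a = v ∧ b = u then 1 else 0)

theorem pf_flow (u v : V) : IsFlow {s(u, v)} (pf u v) := by
  constructor
  · intro a b
    unfold pf
    by_cases h1 : a = u ∧ b = v <;> by_cases h2 : a = v ∧ b = u <;>
      simp [h1, h2, and_comm]
  · intro a b hab
    unfold pf
    rw [mem_singleton_iff, Sym2.eq_iff] at hab
    push Not at hab
    rw [if_neg (fun h => hab.1 h.1 h.2), if_neg (fun h => hab.2 h.1 h.2), sub_zero]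

theorem pf_self {u v : V} (h : u ≠ v) : pf u v u v = 1 := by
  unfold pf; simp [h]

theorem dv_pf (u v t : V) : dv (pf u v) t = (if t = u then 1 else 0) - (if t = v then 1 else 0) := by
  unfold dv pf
  rw [Finset.sum_sub_distrib]
  congr 1
  · by_cases h : t = u
    · simp [h]
    · simp [h]
  · by_cases h : t = v
    · simp [h]
    · simp [h]

theorem L_pf {A : Finset V} {D : PD V} (hD : Ok A D) (u v k : V) :
    L D (pf u v) k = 2 * lam D u v k := by
  have h1 : ∀ a b, pf u v a b * lam D a b k = (if a = u then (if b = v then lam D u v k else 0) else 0)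
      + (if a = v then (if b = u then lam D u v k else 0) else 0) := by
    intro a b
    unfold pf
    have h2 := lam_symm hD u v k
    by_cases h1 : a = u ∧ b = v
    · obtain ⟨rfl, rfl⟩ := h1
      by_cases h3 : a = b
      · subst h3
        simp
        have := lam_symm hD a a k
        linarith
      · simp [h3]
    · by_cases h3 : a = v ∧ b = u
      · obtain ⟨rfl, rfl⟩ := h3
        have h4 : a ≠ b := by rintro rfl; exact h1 ⟨rfl, rfl⟩
        simp [h4, h2]
      · rw [if_neg h1, if_neg h3, sub_zero, zero_mul]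
        by_cases ha : a = u
        · have hb : b ≠ v := fun hb => h1 ⟨ha, hb⟩
          by_cases ha' : a = v
          · have hb' : b ≠ u := fun hb' => h3 ⟨ha', hb'⟩
            simp [hb, hb']
          · simp [hb, ha']
        · by_cases ha' : a = v
          · have hb' : b ≠ u := fun hb' => h3 ⟨ha', hb'⟩
            simp [ha, hb']
          · simp [ha, ha']
  unfold L
  rw [Finset.sum_congr rfl fun a _ => Finset.sum_congr rfl fun b _ => h1 a b]
  simp only [Finset.sum_add_distrib]
  have h2 : ∀ (x y : V) (c : ℝ), ∑ a, ∑ b, (if a = x then (if b = y then c else 0) else 0) = c := by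
    intro x y c
    rw [Finset.sum_eq_single x]
    · simp
    · intro a _ ha; simp [ha]
    · intro h; exact absurd (Finset.mem_univ _) h
  rw [h2, h2]; ring

/-- The 1-extension step. -/
theorem step3 {A : Finset V} {D : PD V} (hD : Ok A D) {F : Set (Sym2 V)} {z u v w : V} (hz : z ∉ A)
    (hF : ∀ e ∈ F, ∀ v ∈ e, v ∈ insert z A) (huA : u ∈ A) (hvA : v ∈ A) (hwA : w ∈ A)
    (huv : u ≠ v) (huw : u ≠ w) (hvw : v ≠ w) (hnb : nb F z = {u, v, w})
    (hne : s(u, v) ∉ off F z) (hG : Good D (insert s(u, v) (off F z))) :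
    ∃ p ∈ A, Good (ext D z p) F := by
  by_contra hcon
  push Not at hcon
  have hA : ∀ a ∈ A, a ≠ z := by rintro a ha rfl; exact hz ha
  have hG0 : Good D (off F z) := hG.mono (subset_insert _ _)
  obtain ⟨c1, f1, d1, l1⟩ := bad_step hD hz hF huA huv huw hvw (hA v hvA) (hA w hwA) hnb hG0
    (hcon u huA)
  obtain ⟨c2, f2, d2, l2⟩ := bad_step (p := v) (q := u) (s := w) hD hz hF hvA huv.symm hvw huw
    (hA u huA) (hA w hwA) (by rw [hnb]; exact insert_comm _ _ _) hG0 (hcon v hvA)
  obtain ⟨c3, f3, d3, l3⟩ := bad_step (p := w) (q := u) (s := v) hD hz hF hwA huw.symm hvw.symm huv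
    (hA u huA) (hA v hvA) (by rw [hnb]; ext t; simp only [mem_insert_iff, mem_singleton_iff]; tauto)
    hG0 (hcon w hwA)
  have hpf := pf_flow u v
  have hfl : IsFlow (insert s(u, v) (off F z))
      (fun a b => c3 a b - c1 a b + c2 a b - 2 * pf u v a b) := by
    constructor
    · intro a b
      simp only []
      rw [f1.1 a b, f2.1 a b, f3.1 a b, hpf.1 a b]; ring
    · intro a b hab
      have h1 : s(a, b) ∉ off F z := fun h => hab (Or.inr h)
      have h2 : s(a, b) ∉ ({s(u, v)} : Set (Sym2 V)) := fun h => hab (Or.inl h)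
      simp only []
      rw [f1.2 a b h1, f2.2 a b h1, f3.2 a b h1, hpf.2 a b h2]; ring
  have hFA : ∀ e ∈ insert s(u, v) (off F z), ∀ t ∈ e, t ∈ A := by
    rintro e (rfl | he) t ht
    · rw [Sym2.mem_iff] at ht
      rcases ht with rfl | rfl
      · exact huA
      · exact hvA
    · rcases Finset.mem_insert.1 (hF e he.1 t ht) with rfl | h
      · exact absurd ht he.2
      · exact h
  have h := hG _ hfl ?_ ?_ u v
  · rw [f1.2 u v hne, f2.2 u v hne, f3.2 u v hne, pf_self huv] at h
    norm_num at h
  · intro t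
    have : dv (fun a b => c3 a b - c1 a b + c2 a b - 2 * pf u v a b) t
        = dv c3 t - dv c1 t + dv c2 t - 2 * dv (pf u v) t := by
      unfold dv
      rw [Finset.sum_sub_distrib, Finset.sum_add_distrib, Finset.sum_sub_distrib, Finset.mul_sum]
    rw [this, d1, d2, d3, dv_pf]; ring
  · intro k hk
    by_cases hkz : k = z
    · rw [hkz]; exact L_out hD hFA hfl hz
    · have : L D (fun a b => c3 a b - c1 a b + c2 a b - 2 * pf u v a b) k
          = L D c3 k - L D c1 k + L D c2 k - 2 * L D (pf u v) k := by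
        unfold L
        simp only [Finset.mul_sum, ← Finset.sum_sub_distrib, ← Finset.sum_add_distrib]
        exact Finset.sum_congr rfl fun a _ => Finset.sum_congr rfl fun b _ => by ring
      rw [this, l1 k hk hkz, l2 k hk hkz, l3 k hk hkz, L_pf hD, lam_symm hD u w, lam_symm hD v w,
        lam_symm hD u v]
      ring

end Pool.Agent.H135R2.RC
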